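import Pool.Agent.H69.GS.SPSa
import Pool.Agent.H34.GU.SP

/-!
Row SPS of the project GS on `MP_c59857_nt`: the inductive step.
-/

set_option autoImplicit false

open Finset Filter Topology

namespace Pool.Agent.H69.GS

open Pool.Agent.H31.DP Pool.Agent.H28.GS Pool.Agent.H31.GUF
open Pool.Agent.H31.DPD (sI IC mulc Oc)
open Pool.Agent.H24.T2 (Pset)
open Pool.Agent.H28.GU (Gw hat Dl aff T_PC)
open Pool.Agent.H28.GUG (cut)
open Pool.Agent.H91.LF (lz abs_lz_le)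
open Pool.Agent.H34.GU (sp_blocks exists_min)

theorem ddh_nonneg (d : ℕ) (H : ℤ → ℝ) (p M : ℕ) : 0 ≤ DDH d H p M := by
  unfold DDH
  exact mul_nonneg (by positivity) (Finset.sum_nonneg fun _ _ => sq_nonneg _)

theorem abs_FF_le {l : ℕ} (h : Fin l → ℕ) (p : ℕ) (y : ℤ) : |FF h p y| ≤ 1 := by
  unfold FF
  rw [Finset.abs_prod]
  exact Finset.prod_le_one (fun i _ => abs_nonneg _) (fun i _ => abs_lz_le _)

theorem abs_cut_le {l : ℕ} (q N : ℕ) (h : Fin l → ℕ) (E : ℤ → ℝ) (hE : ∀ n, |E n| ≤ 1)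
    (x : ZMod q) : |cut q N (gs h E) x| ≤ 1 := by
  unfold cut
  split_ifs
  · unfold gs
    rw [abs_div, abs_of_pos (by norm_num : (0 : ℝ) < 2), div_le_one (by norm_num)]
    refine (abs_sub _ _).trans ?_
    linarith [abs_FF_le h 1 (x.val : ℤ), hE (x.val : ℤ)]
  · rw [abs_zero]
    exact zero_le_one

/-- the function of the net for the scale `M` -/
theorem net_twist {L : ℕ} {φ₁ : ℤ → ℤ → ℝ} (h : NetF L φ₁) (l W : ℕ) (v : ℤ) :
    NetF L (fun s j => (-1) ^ l * φ₁ ((v * s) % (W : ℤ)) j) := by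
  intro s j
  obtain ⟨k, hk, he⟩ := h ((v * s) % (W : ℤ)) j
  refine ⟨(-1) ^ l * k, ?_, ?_⟩
  · rw [abs_mul, abs_pow, abs_neg, abs_one, one_pow, one_mul]
    exact hk
  · show (-1) ^ l * φ₁ ((v * s) % (W : ℤ)) j = _
    rw [he]
    push_cast
    ring

theorem twist_eq (φ₁ : ℤ → ℤ → ℝ) (l W J M p : ℕ) (v n : ℤ) (hv : (p : ℤ) * v ≡ 1 [ZMOD W]) :
    (-1) ^ l * st W J M (fun s j => (-1) ^ l * φ₁ ((v * s) % (W : ℤ)) j) ((p : ℤ) * n) =
      φ₁ (n % (W : ℤ)) ((J : ℤ) * ((p : ℤ) * n) / (M : ℤ)) := by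
  unfold st
  have h1 : (v * (((p : ℤ) * n) % (W : ℤ))) % (W : ℤ) = n % (W : ℤ) := by
    have h2 : v * (((p : ℤ) * n) % (W : ℤ)) ≡ v * ((p : ℤ) * n) [ZMOD W] :=
      (Int.mod_modEq _ _).mul_left v
    have h3 : v * ((p : ℤ) * n) ≡ n [ZMOD W] := by
      have h4 := hv.mul_right n
      rw [one_mul] at h4
      have h5 : v * ((p : ℤ) * n) = (p : ℤ) * v * n := by ring
      rw [h5]
      exact h4
    exact h2.trans h3
  simp only [h1]
  rw [← mul_assoc, ← pow_add, ← two_mul, pow_mul]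
  norm_num

theorem pf_SPS (hMK : T_MKS) (hGA : T_GAS) (hPC : T_PC) : T_SPS := by
  classical
  intro d l δ hd hδ
  obtain ⟨c₀, hc₀, hMK⟩ := hMK
  obtain ⟨δ₁, hδ₁, hPC⟩ := hPC d δ hd hδ
  obtain ⟨τ₀, hτ₀, κ₀, hκ₀, hGA⟩ := hGA d l δ₁ hδ₁
  refine ⟨τ₀ / 4, by positivity, ?_⟩
  intro h W J ρ hW hJ hρ
  have hWr : (0 : ℝ) < W := by exact_mod_cast hW
  have hJr : (0 : ℝ) < J := by exact_mod_cast hJ
  obtain ⟨L, hL, hLτ⟩ : ∃ L : ℕ, 0 < L ∧ 1 / (L : ℝ) ≤ τ₀ / 4 := by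
    refine ⟨⌈4 / τ₀⌉₊ + 1, Nat.succ_pos _, ?_⟩
    have h1 : 4 / τ₀ ≤ ((⌈4 / τ₀⌉₊ + 1 : ℕ) : ℝ) := by
      push_cast
      linarith [Nat.le_ceil (4 / τ₀)]
    calc 1 / ((⌈4 / τ₀⌉₊ + 1 : ℕ) : ℝ) ≤ 1 / (4 / τ₀) :=
          one_div_le_one_div_of_le (by positivity) h1
      _ = τ₀ / 4 := by rw [one_div_div]
  set κ : ℝ := min (min κ₀ 1) (τ₀ / (64 * ((J : ℝ) + 1))) with hκ
  have hκ0 : 0 < κ := lt_min (lt_min hκ₀ one_pos) (by positivity)
  have hκ1 : κ ≤ 1 := (min_le_left _ _).trans (min_le_right _ _)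
  have hκκ : κ ≤ κ₀ := (min_le_left _ _).trans (min_le_left _ _)
  have hκτ : κ ≤ τ₀ / (64 * ((J : ℝ) + 1)) := min_le_right _ _
  obtain ⟨θ, hθ, m₀, hGA⟩ := hGA h (c₀ * κ / (16 * W)) (by positivity)
  set θ' : ℝ := θ * κ / (16 * W) with hθ'
  have hθ'0 : 0 < θ' := by positivity
  set m₀' : ℕ := max m₀ (max W ⌈1 / κ⌉₊) + 1 with hm₀'
  have hlarge : ∀ m, m₀' ≤ m → m₀ ≤ m ∧ W < 2 ^ m ∧ 1 ≤ κ * 2 ^ m := by
    intro m hm
    have h1 : m₀ ≤ max m₀ (max W ⌈1 / κ⌉₊) := le_max_left _ _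
    have h2 : W ≤ max m₀ (max W ⌈1 / κ⌉₊) := (le_max_left _ _).trans (le_max_right _ _)
    have h3 : ⌈1 / κ⌉₊ ≤ max m₀ (max W ⌈1 / κ⌉₊) := (le_max_right _ _).trans (le_max_right _ _)
    have h4 : m < 2 ^ m := Nat.lt_two_pow_self
    refine ⟨by omega, by omega, ?_⟩
    have h5 : (⌈1 / κ⌉₊ : ℝ) ≤ 2 ^ m := by
      have h6 : ⌈1 / κ⌉₊ ≤ 2 ^ m := by omega
      exact_mod_cast h6
    have h7 : 1 / κ ≤ 2 ^ m := (Nat.le_ceil _).trans h5
    rwa [div_le_iff₀' hκ0] at h7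
  obtain ⟨m₁, K₁, hMK⟩ := hMK (d + 1) l h W J L θ' (ρ / 8) m₀' hW hJ hL hθ'0 (by positivity)
  -- the constants of the single scales
  have hQ : ∀ m : ℕ, ∃ (K : ℕ) (δ' : ℝ), 0 < δ' ∧ (m₀' ≤ m →
      c₀ * 2 ^ m / m ≤ ((Pset 1 m).card : ℝ) →
      ∃ P : ℕ, 0 < P ∧ P ≤ 2 ^ (m + 1) ∧ ∀ (M N q : ℕ) [Fact q.Prime] (E : ℤ → ℝ)
        (φ : ℤ → ℤ → ℝ), K ≤ N → M / P = N → 5 * N ≤ q → q ≤ 10 * N + 10 →
        (∀ n, |E n| ≤ 1) → (∀ s j, |φ s j| ≤ 1) →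
        ∑ n ∈ Finset.Icc (1 : ℤ) N, |E n - st W J N φ n| ≤ τ₀ / 4 * N →
        (∀ φ' : ℤ → ℤ → ℝ, NetF L φ' →
          ∑ p ∈ Pset 1 m, DDH (d + 1) (Hs h (st W J M φ') p) p M ≤
            θ' * (Pset 1 m).card * (M : ℝ) ^ (d + 3)) →
        δ * (q : ℝ) ^ (d + 3) ≤ Gw (d + 2) (cut q N (gs h E)) →
        δ' * (q : ℝ) ^ (d + 2) ≤ Gw (d + 1) (cut q N (gs h E))) := by
    intro m
    by_cases hm : m₀' ≤ m ∧ c₀ * 2 ^ m / m ≤ ((Pset 1 m).card : ℝ)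
    · obtain ⟨hm1, hm2, hm3⟩ := hlarge m hm.1
      obtain ⟨P, A, v, hA, hP1, hP2, hPp, hv, hAc⟩ := pigeon m W κ hW hκ0 hκ1 hm3 hm2
      have hP : 0 < P := lt_of_lt_of_le (by positivity) hP1
      have hPr : (0 : ℝ) < P := by exact_mod_cast hP
      have hP1r : (2 : ℝ) ^ m ≤ P := by exact_mod_cast hP1
      have hAα : c₀ * κ / (16 * W) * 2 ^ m / m ≤ (A.card : ℝ) := by
        refine le_trans ?_ hAc
        have h1 : c₀ * κ / (16 * W) * 2 ^ m / m = κ / (16 * W) * (c₀ * 2 ^ m / m) := by ring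
        rw [h1]
        have h2 : κ / (16 * W) ≤ κ / (4 * W) := by
          refine div_le_div_of_nonneg_left hκ0.le (by positivity) ?_
          linarith
        exact mul_le_mul h2 hm.2 (by positivity) (by positivity)
      obtain ⟨K, B, k, f, hf, hG⟩ := hGA m A P hm1 hA hAα hP1 hP2 (by
        intro p hp
        obtain ⟨h1, h2⟩ := hPp p hp
        refine ⟨h1, h2.trans ?_⟩
        have h3 : κ * 2 ^ m ≤ κ₀ * 2 ^ m := mul_le_mul_of_nonneg_right hκκ (by positivity)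
        linarith)
      obtain ⟨δ', hδ', hC⟩ := hPC f B k hf
      refine ⟨max K (max 1 ⌈96 * ((J : ℝ) + 1) / τ₀⌉₊), δ', hδ', fun _ _ => ⟨P, hP, hP2, ?_⟩⟩
      intro M N q _ E φ hKN hMN hq1 hq2 hE hφ hclose hdef hbig
      have hKN' : K ≤ N := (le_max_left _ _).trans hKN
      have hN0 : 0 < N := lt_of_lt_of_le one_pos
        (((le_max_left _ _).trans (le_max_right _ _)).trans hKN)
      have hNτ : 96 * ((J : ℝ) + 1) / τ₀ ≤ N := by
        refine (Nat.le_ceil _).trans ?_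
        exact_mod_cast ((le_max_right _ _).trans (le_max_right _ _)).trans hKN
      obtain ⟨σ, R, hR1, hR2, hR3⟩ := hC q (cut q N (gs h E)) (abs_cut_le q N h E hE) hbig
      obtain ⟨φ₁, hn₁, hr₁⟩ := rounding L hL φ hφ
      have hnt := net_twist hn₁ l W v
      have hΨ : ∀ y, |st W J M (fun s j => (-1) ^ l * φ₁ ((v * s) % (W : ℤ)) j) y| ≤ 1 :=
        fun y => net_abs hL hnt _ _
      have hdef' : ∑ p ∈ A, DDH (d + 1)
          (Hs h (st W J M (fun s j => (-1) ^ l * φ₁ ((v * s) % (W : ℤ)) j)) p) p M ≤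
            θ * A.card * (M : ℝ) ^ (d + 3) := by
        refine (Finset.sum_le_sum_of_subset_of_nonneg hA
          (fun p _ _ => ddh_nonneg _ _ _ _)).trans ((hdef _ hnt).trans ?_)
        refine mul_le_mul_of_nonneg_right ?_ (by positivity)
        have h1 : θ' * ((Pset 1 m).card : ℝ) ≤ θ * (κ / (4 * W) * ((Pset 1 m).card : ℝ)) := by
          have h2 : θ' ≤ θ * (κ / (4 * W)) := by
            rw [hθ', mul_div_assoc]
            refine mul_le_mul_of_nonneg_left ?_ hθ.le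
            refine div_le_div_of_nonneg_left hκ0.le (by positivity) ?_
            linarith
          rw [← mul_assoc]
          exact mul_le_mul_of_nonneg_right h2 (Nat.cast_nonneg _)
        exact h1.trans (mul_le_mul_of_nonneg_left hAc hθ.le)
      have hcl : ∀ p ∈ A, ∑ n ∈ Finset.Icc (1 : ℤ) ((M / p : ℕ) : ℤ),
          |E n - (-1) ^ l * st W J M (fun s j => (-1) ^ l * φ₁ ((v * s) % (W : ℤ)) j)
            ((p : ℤ) * n)| ≤ τ₀ * N := by
        intro p hp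
        obtain ⟨h1, h2⟩ := hPp p hp
        have h3 : (p : ℝ) ≤ (1 + κ) * P := by
          have h4 : κ * 2 ^ m ≤ κ * P := mul_le_mul_of_nonneg_left hP1r hκ0.le
          linarith
        have h5 := close_sum W J N P M p L κ τ₀ hW hJ hN0 hP hL hκ0.le hτ₀ hMN h1 h3 hLτ hκτ hNτ
          E φ φ₁ (fun s j => net_abs hL hn₁ s j) hr₁ hclose
        refine le_trans (le_of_eq ?_) h5
        refine Finset.sum_congr rfl fun n _ => ?_
        rw [twist_eq φ₁ l W J M p v n (hv p hp)]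
      obtain ⟨Wt, _, a, p, χ, Q, r, c, F, h1, h2, h3, h4, h5, h6, h7, h8⟩ :=
        hG M N q hKN' hMN hq1 hq2 _ E hΨ hE hdef' hcl σ R hR1 hR2
      exact hR3 Wt a p χ Q r c F h1 h2 h3 h4 h5 h6 h7 h8
    · exact ⟨0, 1, one_pos, fun h1 h2 => absurd ⟨h1, h2⟩ hm⟩
  choose Kf δf hδf hKf using hQ
  obtain ⟨δ', hδ', hδmin⟩ := exists_min δf hδf m₁
  refine ⟨δ', hδ', ?_⟩
  set K₂ : ℕ := (Finset.range (m₁ + 1)).sup Kf with hK₂
  set K : ℕ := max (max K₁ K₂) (max (2 ^ (m₁ + 2)) ⌈Real.exp (2 * K₂ / ρ)⌉₊) with hK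
  refine ⟨K, fun x y hx hxy => ?_⟩
  have hK1 : K₁ ≤ K := (le_max_left _ _).trans (le_max_left _ _)
  have hK3 : 2 ^ (m₁ + 2) ≤ K := (le_max_left _ _).trans (le_max_right _ _)
  have hK4' : ⌈Real.exp (2 * K₂ / ρ)⌉₊ ≤ K := (le_max_right _ _).trans (le_max_right _ _)
  have hK4 : Real.exp (2 * K₂ / ρ) ≤ K := (Nat.le_ceil _).trans (Nat.cast_le.2 hK4')
  have hK0 : 0 < K := lt_of_lt_of_le (by positivity) hK3
  have hx' : (0 : ℝ) < x := by exact_mod_cast hx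
  have hlog : Real.log K ≤ Real.log ((y : ℝ) / x) := by
    apply Real.log_le_log (by exact_mod_cast hK0)
    rw [le_div_iff₀ hx']
    exact_mod_cast hxy
  have hlog1 : (m₁ + 2 : ℕ) * Real.log 2 ≤ Real.log ((y : ℝ) / x) := by
    refine le_trans ?_ hlog
    rw [← Real.log_pow]
    apply Real.log_le_log (by positivity)
    exact_mod_cast hK3
  have hlog2 : 2 * (K₂ : ℝ) / ρ ≤ Real.log ((y : ℝ) / x) := by
    refine le_trans ?_ hlog
    rw [Real.le_log_iff_exp_le (by exact_mod_cast hK0)]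
    exact hK4
  have hy : 0 < y := lt_of_lt_of_le (Nat.mul_pos hK0 hx) hxy
  have hy' : (0 : ℝ) < y := by exact_mod_cast hy
  -- the larger range
  have hyy : y ≤ 2 ^ (m₁ + 2) * y := Nat.le_mul_of_pos_left y (by positivity)
  obtain ⟨m, hm0, hm1, hmc, hbad⟩ := hMK x (2 ^ (m₁ + 2) * y) hx
    (((Nat.mul_le_mul_right x hK1).trans hxy).trans hyy)
  have hKm : Kf m ≤ K₂ := Finset.le_sup (f := Kf) (Finset.mem_range.2 (by omega))
  obtain ⟨P, hP, hP2, hPs⟩ := hKf m hm0 hmc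
  have hlog3 : Real.log (((2 ^ (m₁ + 2) * y : ℕ) : ℝ) / x) ≤ 2 * Real.log ((y : ℝ) / x) := by
    have e1 : ((2 ^ (m₁ + 2) * y : ℕ) : ℝ) / x = 2 ^ (m₁ + 2) * ((y : ℝ) / x) := by
      push_cast
      ring
    rw [e1, Real.log_mul (by positivity) (by positivity), Real.log_pow]
    linarith
  -- the failing numbers
  set A : Finset ℕ := (Finset.Icc x y).filter
    (fun N : ℕ => ∃ (E : ℤ → ℝ) (φ : ℤ → ℤ → ℝ) (q : ℕ)
        (_ : NeZero q), (∀ n, |E n| ≤ 1) ∧ (∀ s j, |φ s j| ≤ 1) ∧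
        ∑ n ∈ Finset.Icc (1 : ℤ) N, |E n - st W J N φ n| ≤ τ₀ / 4 * N ∧ q.Prime ∧ 5 * N ≤ q ∧
        q ≤ 10 * N + 10 ∧ δ * (q : ℝ) ^ (d + 3) ≤ Gw (d + 2) (cut q N (gs h E)) ∧
        Gw (d + 1) (cut q N (gs h E)) < δ' * (q : ℝ) ^ (d + 2)) with hA
  rw [← Finset.sum_filter_add_sum_filter_not A (fun N => N < K₂)]
  have h1 : ∑ N ∈ A with N < K₂, (1 / (N : ℝ)) ≤ ρ / 2 * Real.log ((y : ℝ) / x) := by
    calc ∑ N ∈ A with N < K₂, (1 / (N : ℝ)) ≤ ∑ N ∈ Finset.range K₂, (1 : ℝ) := by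
          refine (Finset.sum_le_sum_of_subset_of_nonneg (t := Finset.range K₂) ?_
            (fun _ _ _ => by positivity)).trans (Finset.sum_le_sum fun N _ => ?_)
          · intro N hN
            rw [Finset.mem_filter] at hN
            exact Finset.mem_range.2 hN.2
          · rcases Nat.eq_zero_or_pos N with h0 | h0
            · rw [h0]
              norm_num
            · rw [div_le_one (by exact_mod_cast h0)]
              exact_mod_cast h0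
      _ = K₂ := by rw [Finset.sum_const, Finset.card_range, nsmul_eq_mul, mul_one]
      _ = ρ / 2 * (2 * (K₂ : ℝ) / ρ) := by field_simp
      _ ≤ _ := mul_le_mul_of_nonneg_left hlog2 (by positivity)
  have h2 : ∑ N ∈ A with ¬ N < K₂, (1 / (N : ℝ)) ≤ ρ / 2 * Real.log ((y : ℝ) / x) := by
    refine (sp_blocks P hP _ ((Finset.Icc x (2 ^ (m₁ + 2) * y)).filter (fun M : ℕ =>
      ∃ φ : ℤ → ℤ → ℝ, NetF L φ ∧ θ' * (Pset 1 m).card * (M : ℝ) ^ (d + 1 + 2) <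
        ∑ p ∈ Pset 1 m, DDH (d + 1) (Hs h (st W J M φ) p) p M))
      ?_ ?_).trans ?_
    · intro N hN
      rw [Finset.mem_filter, hA, Finset.mem_filter, Finset.mem_Icc] at hN
      omega
    · intro N hN M hM
      rw [Finset.mem_filter, hA, Finset.mem_filter, Finset.mem_Icc, not_lt] at hN
      obtain ⟨⟨⟨hN1, hN2⟩, E, φ, q, hq0, hE, hφ, hcl, hq, hq1, hq2, hq3, hq4⟩, hN3⟩ := hN
      have hMlo : P * N ≤ M := by
        rw [← hM]
        exact Nat.mul_div_le M P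
      have hMup : M < P * (N + 1) := by
        rw [← hM]
        exact Nat.lt_mul_div_succ M hP
      rw [Finset.mem_filter, Finset.mem_Icc]
      refine ⟨⟨hN1.trans ((Nat.le_mul_of_pos_left N hP).trans hMlo), ?_⟩, ?_⟩
      · have h3 : P * (N + 1) ≤ 2 ^ (m + 1) * (2 * y) := by
          apply Nat.mul_le_mul hP2
          omega
        have h4 : 2 ^ (m + 1) * (2 * y) ≤ 2 ^ (m₁ + 2) * y := by
          have h5 : 2 ^ (m + 1) ≤ 2 ^ (m₁ + 1) := Nat.pow_le_pow_right (by norm_num) (by omega)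
          calc 2 ^ (m + 1) * (2 * y) ≤ 2 ^ (m₁ + 1) * (2 * y) := Nat.mul_le_mul_right _ h5
            _ = 2 ^ (m₁ + 2) * y := by ring
        omega
      · by_contra hc
        push Not at hc
        have : Fact q.Prime := ⟨hq⟩
        have h3 := hPs M N q E φ (hKm.trans hN3) hM hq1 hq2 hE hφ hcl hc hq3
        have h4 : δ' * (q : ℝ) ^ (d + 2) ≤ δf m * (q : ℝ) ^ (d + 2) :=
          mul_le_mul_of_nonneg_right (hδmin m hm1) (by positivity)
        exact absurd (h4.trans h3) (not_le.2 hq4)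
    · have h3 : 2 * (ρ / 8 * Real.log (((2 ^ (m₁ + 2) * y : ℕ) : ℝ) / x)) ≤
          ρ / 2 * Real.log ((y : ℝ) / x) := by
        have h4 := mul_le_mul_of_nonneg_left hlog3 (show 0 ≤ ρ / 4 by positivity)
        linarith
      refine le_trans ?_ h3
      linarith
  linarith

end Pool.Agent.H69.GS
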