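import Pool.Agent.H75.GS.Targets

/-!
MP_0f8dca_lc, module HQM: the hidden children of the non-members are rarely queried.
-/

set_option autoImplicit false

namespace Pool.Agent.H69.GS

open Finset Pool.Agent.H6.NB Pool.Agent.H70.OQ Pool.Agent.H75.GS

theorem hqm_dc {X Z : Type} [Fintype X] [DecidableEq X] [Fintype Z] [DecidableEq Z] (x : X)
    (G : (X → Z) → ℝ) :
    ∑ h : X → Z, ∑ z, G (Function.update h x z) = Fintype.card Z * ∑ h : X → Z, G h := by
  classical
  have inv : Function.Involutive (fun p : (X → Z) × Z => (Function.update p.1 x p.2, p.1 x)) := by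
    rintro ⟨h, z⟩
    simp
  have h1 : ∑ p : (X → Z) × Z, G (Function.update p.1 x p.2) = ∑ p : (X → Z) × Z, G p.1 :=
    Equiv.sum_comp (inv.toPerm _) (fun p : (X → Z) × Z => G p.1)
  rw [Fintype.sum_prod_type, Fintype.sum_prod_type] at h1
  rw [h1]
  simp only [sum_const, card_univ, nsmul_eq_mul]
  rw [mul_sum]

theorem pf_HQM : T_HQM := by
  intro X Z _ _ _ _ b O ps F τ hO hps hF hT hτ hXZ hX
  classical
  have hX' : (0 : ℝ) < Fintype.card X := by exact_mod_cast hX
  have hXZ' : (Fintype.card X : ℝ) ^ 2 ≤ Fintype.card Z := by exact_mod_cast hXZ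
  have hZ' : (0 : ℝ) < Fintype.card Z := lt_of_lt_of_le (by positivity) hXZ'
  set thr : ℝ := 8 * τ / Fintype.card X with hthr
  set V : ℝ := (Fintype.card Z : ℝ) ^ Fintype.card X with hV
  have hV0 : 0 ≤ V := by positivity
  have hone : ∀ x, b x = false →
      ((univ.filter fun h : X → Z => thr < F x (O h) (ps x (h x))).card : ℝ) ≤
        V * Fintype.card X / (8 * Fintype.card Z) := by
    intro x hx
    set N := (univ.filter fun h : X → Z => thr < F x (O h) (ps x (h x))) with hN
    have h1 : thr * N.card ≤ ∑ h : X → Z, F x (O h) (ps x (h x)) := by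
      calc thr * N.card = ∑ _h ∈ N, thr := by simp [mul_comm]
        _ ≤ ∑ h ∈ N, F x (O h) (ps x (h x)) := by
            apply sum_le_sum
            intro h hh
            rw [hN, mem_filter] at hh
            exact hh.2.le
        _ ≤ ∑ h : X → Z, F x (O h) (ps x (h x)) :=
            sum_le_sum_of_subset_of_nonneg (subset_univ _) (fun h _ _ => hF _ _ _)
    have h2 : (Fintype.card Z : ℝ) * ∑ h : X → Z, F x (O h) (ps x (h x)) ≤ V * τ := by
      rw [← hqm_dc x (fun h => F x (O h) (ps x (h x)))]
      have h3 : ∀ h ∈ (univ : Finset (X → Z)),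
          ∑ z, F x (O (Function.update h x z)) (ps x (Function.update h x z x)) ≤ τ := by
        intro h _
        have h4 : ∀ z, F x (O (Function.update h x z)) (ps x (Function.update h x z x)) =
            F x (O h) (ps x z) := by
          intro z
          rw [hO h x z hx, Function.update_self]
        simp_rw [h4]
        have h5 := hT x (O h) (univ.image (ps x))
        rw [sum_image (fun z _ z' _ hzz => hps x hzz)] at h5
        exact h5
      refine (sum_le_sum h3).trans ?_
      rw [sum_const, card_univ, Fintype.card_fun, nsmul_eq_mul]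
      push_cast
      exact le_rfl
    have h5 : (Fintype.card Z : ℝ) * (thr * N.card) ≤ V * τ :=
      (mul_le_mul_of_nonneg_left h1 hZ'.le).trans h2
    rw [le_div_iff₀ (by positivity)]
    have h6 : (Fintype.card Z : ℝ) * (thr * N.card) =
        τ * ((N.card : ℝ) * (8 * Fintype.card Z) / Fintype.card X) := by
      rw [hthr]
      field_simp
    rw [h6, mul_comm V τ] at h5
    have h7 := le_of_mul_le_mul_left h5 hτ
    rw [div_le_iff₀ hX'] at h7
    exact h7
  have hsub : (univ.filter fun h : X → Z => ∃ x, b x = false ∧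
      8 * τ / Fintype.card X < F x (O h) (ps x (h x))) ⊆
      (univ.filter fun x => b x = false).biUnion fun x =>
        univ.filter fun h : X → Z => thr < F x (O h) (ps x (h x)) := by
    intro h hh
    rw [mem_filter] at hh
    obtain ⟨_, x, hx1, hx2⟩ := hh
    rw [mem_biUnion]
    exact ⟨x, mem_filter.2 ⟨mem_univ _, hx1⟩, mem_filter.2 ⟨mem_univ _, hx2⟩⟩
  have h1 := (card_le_card hsub).trans card_biUnion_le
  have h1' : ((univ.filter fun h : X → Z => ∃ x, b x = false ∧
      8 * τ / Fintype.card X < F x (O h) (ps x (h x))).card : ℝ) ≤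
      ∑ x ∈ univ.filter (fun x => b x = false),
        ((univ.filter fun h : X → Z => thr < F x (O h) (ps x (h x))).card : ℝ) := by
    exact_mod_cast h1
  refine h1'.trans ?_
  calc ∑ x ∈ univ.filter (fun x => b x = false),
        ((univ.filter fun h : X → Z => thr < F x (O h) (ps x (h x))).card : ℝ)
      ≤ ∑ _x ∈ univ.filter (fun x => b x = false), V * Fintype.card X / (8 * Fintype.card Z) := by
        apply sum_le_sum
        intro x hx
        rw [mem_filter] at hx
        exact hone x hx.2
    _ = ((univ.filter (fun x => b x = false)).card : ℝ) *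
        (V * Fintype.card X / (8 * Fintype.card Z)) := by
        rw [sum_const, nsmul_eq_mul]
    _ ≤ (Fintype.card X : ℝ) * (V * Fintype.card X / (8 * Fintype.card Z)) := by
        apply mul_le_mul_of_nonneg_right _ (by positivity)
        exact_mod_cast card_le_univ _
    _ = 1 / 8 * (V * ((Fintype.card X : ℝ) ^ 2 / Fintype.card Z)) := by
        field_simp
    _ ≤ 1 / 8 * (V * 1) := by
        apply mul_le_mul_of_nonneg_left _ (by norm_num)
        apply mul_le_mul_of_nonneg_left _ hV0
        rw [div_le_one hZ']
        exact hXZ'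
    _ = 1 / 8 * V := by ring

end Pool.Agent.H69.GS
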