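import Pool.Agent.H75.GS.Targets
import Pool.Agent.H35.NB.PAR

/-!
MP_0f8dca_lc, module PRX: the parameters of the stage.
-/

set_option autoImplicit false

namespace Pool.Agent.H69.GS

open Filter Topology Pool.Agent.H70.OQ Pool.Agent.H75.GS Pool.Agent.H35.NB.P

theorem prx_shift {N S t d h : ℕ} {w r k : ℕ → ℕ} {δ : ℕ → ℝ} (H : Prm N S t d (h + 1) w r k δ) :
    Prm N S t d h (fun j => w (j + 1)) (fun j => r (j + 1)) (fun j => k (j + 1))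
      (fun j => δ (j + 1)) where
  t_pos := H.t_pos
  k_pos := fun j => H.k_pos (j + 1)
  w_pos := fun j => H.w_pos (j + 1)
  δ_nonneg := fun j => H.δ_nonneg (j + 1)
  kS := fun j hj => H.kS (j + 1) (by omega)
  dS := fun j hj => H.dS (j + 1) (by omega)

theorem prx_speed (C n : ℕ) (ε : ℝ)
    (h : (n : ℝ) ^ 0 / ((2 : ℝ) ^ (2 * ε)) ^ n < 1 / (18433 * ((C : ℝ) ^ 2 + 1))) :
    4608 * ((C : ℝ) * (2 : ℝ) ^ ((1 / 2 - ε) * (n : ℝ))) ^ 2 < (2 : ℝ) ^ n / 4 := by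
  have h2 : ((2 : ℝ) ^ ((1 / 2 - ε) * (n : ℝ))) ^ 2 = 2 ^ n / ((2 : ℝ) ^ (2 * ε)) ^ n := by
    rw [← Real.rpow_natCast ((2 : ℝ) ^ ((1 / 2 - ε) * (n : ℝ))) 2, ← Real.rpow_mul (by norm_num),
      ← Real.rpow_natCast ((2 : ℝ) ^ (2 * ε)) n, ← Real.rpow_mul (by norm_num),
      ← Real.rpow_natCast (2 : ℝ) n, ← Real.rpow_sub (by norm_num)]
    congr 1
    push_cast
    ring
  have hr : (0 : ℝ) < ((2 : ℝ) ^ (2 * ε)) ^ n := by positivity
  rw [pow_zero, div_lt_div_iff₀ hr (by positivity), one_mul, one_mul] at h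
  rw [mul_pow, h2]
  have h3 : (0 : ℝ) < 2 ^ n := by positivity
  have h4 : 4608 * ((C : ℝ) ^ 2 * (2 ^ n / ((2 : ℝ) ^ (2 * ε)) ^ n)) =
      4608 * (C : ℝ) ^ 2 * 2 ^ n / ((2 : ℝ) ^ (2 * ε)) ^ n := by
    field_simp
  rw [h4, div_lt_div_iff₀ hr (by norm_num)]
  have h5 : 4608 * (C : ℝ) ^ 2 * 4 < ((2 : ℝ) ^ (2 * ε)) ^ n := by
    have : (0 : ℝ) ≤ (C : ℝ) ^ 2 := sq_nonneg _
    nlinarith
  calc 4608 * (C : ℝ) ^ 2 * 2 ^ n * 4 = 2 ^ n * (4608 * (C : ℝ) ^ 2 * 4) := by ring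
    _ < 2 ^ n * ((2 : ℝ) ^ (2 * ε)) ^ n := mul_lt_mul_of_pos_left h5 h3

theorem prx_last (b B n : ℕ) (h : (n : ℝ) ^ (2 * (b + B)) / 2 ^ n < 1 / 576 ^ 2) :
    8 * ((n : ℝ) ^ b * (2 * ((n ^ B : ℕ) : ℝ) + 8 * 2 ^ (n / 4 + 1) * ((n ^ B : ℕ) : ℝ))) ≤
      1 / 2 ^ (n / 4) * (2 ^ n / 4) := by
  have hn0 : (0 : ℝ) < 2 ^ n := by positivity
  set q : ℝ := 2 ^ (n / 4) with hq
  have hq1 : 1 ≤ q := one_le_pow₀ (by norm_num)
  have hq4 : q ^ 4 ≤ 2 ^ n := by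
    rw [hq, ← pow_mul]
    exact pow_le_pow_right₀ (by norm_num) (by omega)
  have hq2 : (2 : ℝ) ^ (n / 4 + 1) = 2 * q := by rw [pow_succ, hq]; ring
  rw [hq2]
  push_cast
  set y : ℝ := (n : ℝ) ^ (b + B) with hy
  have hy0 : 0 ≤ y := by positivity
  have hy2 : (576 * y) ^ 2 ≤ 2 ^ n := by
    rw [div_lt_div_iff₀ hn0 (by positivity), one_mul] at h
    calc (576 * y) ^ 2 = (n : ℝ) ^ (2 * (b + B)) * 576 ^ 2 := by
          rw [mul_pow, hy, ← pow_mul, mul_comm (b + B) 2]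
          ring
      _ ≤ _ := h.le
  have h1 : (576 * y * q ^ 2) ^ 2 ≤ (2 ^ n) ^ 2 := by
    calc (576 * y * q ^ 2) ^ 2 = (576 * y) ^ 2 * q ^ 4 := by ring
      _ ≤ 2 ^ n * 2 ^ n := mul_le_mul hy2 hq4 (by positivity) hn0.le
      _ = _ := by ring
  have h2 : 576 * y * q ^ 2 ≤ 2 ^ n := le_of_sq_le_sq h1 hn0.le
  have h3 : 1 / q * (2 ^ n / 4) = 2 ^ n / (4 * q) := by field_simp
  rw [h3, le_div_iff₀ (by positivity)]
  have h4 : 8 * ((n : ℝ) ^ b * (2 * (n : ℝ) ^ B + 8 * (2 * q) * (n : ℝ) ^ B)) =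
      y * (16 + 128 * q) := by
    rw [hy, pow_add]; ring
  rw [h4]
  have h5 : 16 + 128 * q ≤ 144 * q := by linarith
  calc y * (16 + 128 * q) * (4 * q) ≤ y * (144 * q) * (4 * q) := by
        apply mul_le_mul_of_nonneg_right _ (by positivity)
        exact mul_le_mul_of_nonneg_left h5 hy0
    _ = 576 * y * q ^ 2 := by ring
    _ ≤ _ := h2

theorem pf_PRX (h1 : T_PMG) : T_PRX := by
  intro K c C c' a0 b ε hε ha0 hc
  set X := 2 ^ a0 * c' with hX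
  set a := X + c' + a0 + 3 with ha
  have hpa : a < 2 ^ a := Nat.lt_two_pow_self
  refine ⟨a, by omega, ?_⟩
  obtain ⟨B, hB⟩ := h1 (a + 1) K (2 ^ a + 1)
  set D := 2 ^ a + B + 3 with hD
  set m := (K + 5) * a + 3 with hm
  set P := 2 * m + 3 with hP
  have e1 := ev1 ((D + 1) * P) 2 (1 / 128 ^ P) (by norm_num) (by positivity)
  have e2 := ev1 0 ((2 : ℝ) ^ (2 * ε)) (1 / (18433 * ((C : ℝ) ^ 2 + 1)))
    (Real.one_lt_rpow (by norm_num) (by positivity)) (by positivity)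
  have e3 := ev1 (2 * (b + B)) 2 (1 / 576 ^ 2) (by norm_num) (by positivity)
  filter_upwards [e1, e2, e3, hB, eventually_ge_atTop (c + 8 + 226 + 2 * m)] with
    n h1 h2 h3' hB hn
  have hn8 : 8 ≤ n := by omega
  have hn0 : 0 < n := by omega
  set N1 := n ^ 2 ^ a with hN1
  have hN1pos : 1 ≤ N1 := Nat.one_le_pow _ _ hn0
  have hmono : ∀ {i j : ℕ}, i ≤ j → n ^ i ≤ n ^ j := fun h => Nat.pow_le_pow_right hn0 h
  have hsucc : ∀ i, 3 * n ^ i ≤ n ^ (i + 1) := by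
    intro i
    rw [pow_succ, mul_comm]
    exact Nat.mul_le_mul_left _ (by omega)
  have hself : ∀ i, i < n ^ i := fun i =>
    lt_of_lt_of_le Nat.lt_two_pow_self (Nat.pow_le_pow_left (by omega) i)
  have hNb : N1 + 2 ≤ n ^ (2 ^ a + 1) := by
    have := hsucc (2 ^ a)
    rw [← hN1] at this
    omega
  obtain ⟨k0, w0, ρ0, w, r, κ, δ, ht0, hw1, hwB, hκ0, hk0, hδ0, hρB, hineq, hPrm, hδ, hκ⟩ :=
    hB N1 (N1 + 2) hN1pos (by omega) hNb
  have hMpos : 1 ≤ n ^ B := Nat.one_le_pow _ _ hn0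
  have hDB : n ^ B ≤ n ^ D := hmono (by omega)
  have hN1D : N1 ≤ n ^ D := hmono (by omega)
  refine ⟨N1, 2 ^ n ^ D, n ^ B, n ^ (D + 1), w 0, r 0, κ 0, fun j => w (j + 1),
    fun j => r (j + 1), fun j => κ (j + 1), fun j => δ (j + 1), 1 / 4 ^ (N1 + 2), hn8, hN1pos,
    ?_, ?_, ?_, ?_, hPrm.w_pos 0, hPrm.k_pos 0, ?_, ?_, prx_shift hPrm, ?_, ?_, ?_, ?_, ?_, hMpos,
    ?_, ?_, Nat.one_le_pow _ _ hn0, ?_, prx_speed C n ε h2, prx_last b B n h3'⟩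
  · have h3 := hsucc c
    have h4 := hself c
    have h5 : n ^ (c + 1) ≤ n ^ 2 ^ a0 := hmono (by omega)
    omega
  · have h3 : n ^ 2 ≤ n ^ 2 ^ a0 := by
      apply hmono
      calc 2 = 2 ^ 1 := by norm_num
        _ ≤ 2 ^ a0 := Nat.pow_le_pow_right (by norm_num) ha0
    have h4 : n ^ 2 = n * n := pow_two n
    have h5 : 4 * n ≤ n * n := Nat.mul_le_mul_right _ (by omega)
    omega
  · have h3 : (n ^ 2 ^ a0) ^ c' = n ^ X := by rw [← pow_mul]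
    rw [h3]
    have h4 : n ^ X ≤ n ^ (X + c') := hmono (by omega)
    have h5 : n ^ c' ≤ n ^ (X + c') := hmono (by omega)
    have h6 := hself c'
    have h7 := hsucc (X + c')
    have h8 : n ^ (X + c' + 1) ≤ N1 := hmono (by omega)
    omega
  · rw [pow_two]
    exact Nat.le_mul_of_pos_right _ (by omega)
  · have h3 := hPrm.kS 0 (by omega)
    simpa using h3
  · have h3 := hPrm.dS 0 (by omega)
    refine le_trans ?_ h3
    have hq : 0 < 2 / qw (w 0) ^ (K + 2) := by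
      have : (0 : ℝ) < w 0 := by exact_mod_cast hPrm.w_pos 0
      unfold qw
      positivity
    apply mul_le_mul_of_nonneg_left _ hq.le
    have h4 : (0 : ℝ) ≤ ((2 ^ n : ℕ) : ℝ) ^ r 0 * δ 0 := mul_nonneg (by positivity)
      (hPrm.δ_nonneg 0)
    have h5 : (2 : ℝ) ^ N1 ≤ 2 ^ (N1 * κ 0) :=
      pow_le_pow_right₀ (by norm_num) (Nat.le_mul_of_pos_right _ (hPrm.k_pos 0))
    have h6 : ((2 : ℝ) ^ n + 1) * (2 ^ N1 + 2 ^ N1 + 1) ^ (K + 2) * 2 / 2 ^ w 0 ≤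
        (((2 ^ n : ℕ) : ℝ) + 1) * (((2 ^ N1 : ℕ) : ℝ) + 2 ^ (N1 * κ 0) + 1) ^ (K + 2) * 2 /
          2 ^ w 0 := by
      push_cast
      gcongr
    linarith
  · intro j hj
    exact hδ (j + 1) (by omega)
  · have h3 : (4 : ℝ) ^ (N1 + 2) = 16 * (2 ^ N1 * 2 ^ N1) := by
      rw [pow_add, show (4 : ℝ) = 2 * 2 by norm_num, mul_pow]
      ring
    have h4 : (1 : ℝ) ≤ 2 ^ N1 := one_le_pow₀ (by norm_num)
    rw [h3, mul_one_div, div_le_div_iff₀ (by positivity) (by norm_num)]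
    nlinarith
  · have h3 : 1 ≤ n ^ D := Nat.one_le_pow _ _ hn0
    calc 2 = 2 ^ 1 := by norm_num
      _ ≤ 2 ^ n ^ D := Nat.pow_le_pow_right (by norm_num) h3
  · exact Nat.pow_le_pow_right (by norm_num) hN1D
  · intro j hj
    exact hκ (j + 1) (by omega)
  · have h3 : n ^ B < 2 ^ n ^ B := Nat.lt_two_pow_self
    have h4 : 2 ^ n ^ B ≤ 2 ^ n ^ D := Nat.pow_le_pow_right (by norm_num) hDB
    omega
  · rw [← pow_mul, ← pow_add]
    apply Nat.pow_le_pow_right (by norm_num)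
    have h3 : n * (n ^ B + 1) = n ^ (B + 1) + n := by ring
    rw [h3]
    have h4 : n ^ (B + 1) ≤ n ^ (D - 1) := hmono (by omega)
    have h5 : N1 ≤ n ^ (D - 1) := hmono (by omega)
    have h6 : n ^ 1 ≤ n ^ (D - 1) := hmono (by omega)
    have h7 := hsucc (D - 1)
    have h8 : D - 1 + 1 = D := by omega
    rw [h8] at h7
    rw [pow_one] at h6
    omega
  · intro q hq
    have h3 : (128 * ((n ^ (D + 1) : ℕ) : ℝ)) ^ P ≤ 2 ^ n := by
      have h4 : (0 : ℝ) < 128 ^ P := by positivity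
      have h5 : (0 : ℝ) < 2 ^ n := by positivity
      rw [div_lt_div_iff₀ h5 h4, one_mul] at h1
      calc (128 * ((n ^ (D + 1) : ℕ) : ℝ)) ^ P = (n : ℝ) ^ ((D + 1) * P) * 128 ^ P := by
            push_cast
            rw [mul_pow, ← pow_mul]
            ring
        _ ≤ _ := le_of_lt h1
    refine bracket n (n ^ (D + 1)) (n ^ D) m q (Nat.one_le_pow _ _ hn0) ?_ h3
    have h6 : 1 ≤ n ^ D := Nat.one_le_pow _ _ hn0
    have h7 : (n ^ D + 1) * m ≤ n ^ D * (2 * m) := by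
      have : (n ^ D + 1) ≤ n ^ D * 2 := by omega
      calc (n ^ D + 1) * m ≤ n ^ D * 2 * m := Nat.mul_le_mul_right _ this
        _ = _ := by ring
    have h8 : 2 + 2 * q ≤ n ^ D * 222 := by omega
    calc 2 + 2 * q + (n ^ D + 1) * m ≤ n ^ D * 222 + n ^ D * (2 * m) :=
          Nat.add_le_add h8 h7
      _ = n ^ D * (222 + 2 * m) := by ring
      _ ≤ n ^ D * n := Nat.mul_le_mul_left _ (by omega)
      _ = _ := (pow_succ n D).symm

end Pool.Agent.H69.GS
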