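import Pool.Agent.H70.GS.Targets

/-!
# Module SEQ of board gs_modules (MP_0f8dca_lc)
-/

set_option autoImplicit false

namespace Pool.Agent.H69.GS.SEQ

open Finset Filter Pool.Agent.H6.NB Pool.Agent.H70.OQ Pool.Agent.H70.GS

theorem seq (h1 : T_SGU) : T_SEQ := by
  intro c C L Φ ε hε
  choose e he using fun k => h1 k (c k) (C k) (ε k) (hε k)
  choose N hN using fun k => eventually_atTop.1 (he k)
  let n : ℕ → ℕ := fun k => Nat.rec (max (N 0) (L 0))
    (fun k m => max (max (N (k + 1)) (L (k + 1)))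
      (2 ^ (gam m * e k) + 2 ^ gam m + 1 + Φ (2 ^ (gam m * e k) + m))) k
  have hn0 : n 0 = max (N 0) (L 0) := rfl
  have hn1 : ∀ k, n (k + 1) = max (max (N (k + 1)) (L (k + 1)))
      (2 ^ (gam (n k) * e k) + 2 ^ gam (n k) + 1 + Φ (2 ^ (gam (n k) * e k) + n k)) :=
    fun k => rfl
  have hNn : ∀ k, N k ≤ n k := by
    intro k
    cases k with
    | zero => rw [hn0]; exact le_max_left _ _
    | succ k => rw [hn1]; exact le_trans (le_max_left _ _) (le_max_left _ _)
  have hLn : ∀ k, L k ≤ n k := by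
    intro k
    cases k with
    | zero => rw [hn0]; exact le_max_right _ _
    | succ k => rw [hn1]; exact le_trans (le_max_right _ _) (le_max_left _ _)
  have h2 : ∀ k, 2 ^ (gam (n k) * e k) + 2 ^ gam (n k) + 1 + Φ (2 ^ (gam (n k) * e k) + n k)
      ≤ n (k + 1) := by
    intro k
    rw [hn1]; exact le_max_right _ _
  refine ⟨n, e, fun k => hN k (n k) (hNn k), hLn, ?_, ?_⟩
  · intro k
    have h3 := h2 k
    generalize 2 ^ (gam (n k) * e k) = a at h3 ⊢
    generalize 2 ^ gam (n k) = b at h3 ⊢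
    constructor
    · omega
    · omega
  · intro k
    have h3 := h2 k
    generalize Φ (2 ^ (gam (n k) * e k) + n k) = c at h3 ⊢
    generalize 2 ^ (gam (n k) * e k) = a at h3
    generalize 2 ^ gam (n k) = b at h3
    omega

end Pool.Agent.H69.GS.SEQ
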