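import Pool.Agent.H28.GS.Targets
import Pool.Agent.H52.DP.PG
import Pool.Agent.H91.LF.Basic

/-!
Row SPS of the project GS on `MP_c59857_nt`, first part: the choice of the primes, the floors, the
rounding.
-/

set_option autoImplicit false

open Finset Filter Topology

namespace Pool.Agent.H69.GS

open Pool.Agent.H31.DP Pool.Agent.H28.GS Pool.Agent.H31.GUF
open Pool.Agent.H31.DPD (sI IC mulc Oc)
open Pool.Agent.H24.T2 (Pset)
open Pool.Agent.H28.GU (Gw hat Dl aff T_PC)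
open Pool.Agent.H28.GUG (cut)
open Pool.Agent.H91.LF (lz abs_lz_le)

/-- the primes: a short interval and a residue class -/
theorem pigeon (m W : ℕ) (κ : ℝ) (hW : 0 < W) (hκ0 : 0 < κ) (hκ1 : κ ≤ 1)
    (hκm : 1 ≤ κ * 2 ^ m) (hWm : W < 2 ^ m) :
    ∃ (P : ℕ) (A : Finset ℕ) (v : ℤ), A ⊆ Pset 1 m ∧ 2 ^ m ≤ P ∧ P ≤ 2 ^ (m + 1) ∧
      (∀ p ∈ A, P < p ∧ (p : ℝ) ≤ P + κ * 2 ^ m) ∧
      (∀ p ∈ A, (p : ℤ) * v ≡ 1 [ZMOD W]) ∧
      κ / (4 * W) * ((Pset 1 m).card : ℝ) ≤ (A.card : ℝ) := by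
  classical
  set Lw : ℕ := ⌊κ * 2 ^ m⌋₊ with hLw
  have hL1 : 1 ≤ Lw := by
    rw [hLw, Nat.one_le_floor_iff]
    exact hκm
  have hL2 : (Lw : ℝ) ≤ κ * 2 ^ m := Nat.floor_le (by positivity)
  have hL3 : κ * 2 ^ m ≤ 2 * Lw := by
    have h1 := Nat.lt_floor_add_one (κ * 2 ^ m)
    have h2 : (1 : ℝ) ≤ Lw := by exact_mod_cast hL1
    rw [← hLw] at h1
    linarith
  have hL4 : (Lw : ℝ) ≤ 2 ^ m := by
    refine hL2.trans ?_
    have : (0 : ℝ) < 2 ^ m := by positivity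
    nlinarith
  obtain ⟨P, hP1, hP2, hP3⟩ := Pool.Agent.H52.DP.pf_PG (Pset 1 m) m Lw hL1 (by
    intro p hp
    unfold Pool.Agent.H24.T2.Pset at hp
    exact Finset.mem_Ioc.1 (Finset.mem_filter.1 hp).1)
  set F := (Pset 1 m).filter (fun p => P < p ∧ p ≤ P + Lw) with hF
  have hWr : (0 : ℝ) < W := by exact_mod_cast hW
  have h2m : (0 : ℝ) < 2 ^ m := by positivity
  have hFc : κ / 4 * ((Pset 1 m).card : ℝ) ≤ (F.card : ℝ) := by
    have h1 : ((Pset 1 m).card : ℝ) * (κ * 2 ^ m) ≤ 4 * 2 ^ m * (F.card : ℝ) := by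
      have h3 : ((Pset 1 m).card : ℝ) * (κ * 2 ^ m) ≤ ((Pset 1 m).card : ℝ) * (2 * Lw) :=
        mul_le_mul_of_nonneg_left hL3 (Nat.cast_nonneg _)
      have h4 : ((2 : ℝ) ^ m + Lw) * (F.card : ℝ) ≤ (2 * 2 ^ m) * (F.card : ℝ) :=
        mul_le_mul_of_nonneg_right (by linarith) (Nat.cast_nonneg _)
      linarith
    have h5 : (κ / 4 * ((Pset 1 m).card : ℝ)) * (4 * 2 ^ m) ≤ (F.card : ℝ) * (4 * 2 ^ m) := by
      linarith
    exact le_of_mul_le_mul_right h5 (by positivity)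
  obtain ⟨r, hr, hrc⟩ := Finset.exists_le_card_fiber_of_nsmul_le_card_of_maps_to
    (s := F) (t := Finset.range W) (f := fun p => p % W) (b := (F.card : ℝ) / W)
    (fun p _ => Finset.mem_range.2 (Nat.mod_lt p hW)) ⟨0, Finset.mem_range.2 hW⟩ (by
      rw [Finset.card_range, nsmul_eq_mul, mul_div_cancel₀ _ hWr.ne'])
  set A := F.filter (fun p => p % W = r) with hA
  have hAF : A ⊆ F := Finset.filter_subset _ _
  have hAP : A ⊆ Pset 1 m := hAF.trans (Finset.filter_subset _ _)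
  have hcop : ∀ p ∈ A, Nat.Coprime p W := by
    intro p hp
    have h1 := hAP hp
    unfold Pool.Agent.H24.T2.Pset at h1
    obtain ⟨h2, h3, -⟩ := Finset.mem_filter.1 h1
    rw [h3.coprime_iff_not_dvd]
    intro h4
    have h5 := Nat.le_of_dvd hW h4
    have h6 := (Finset.mem_Ioc.1 h2).1
    omega
  obtain ⟨v, hv⟩ : ∃ v : ℤ, ∀ p ∈ A, (p : ℤ) * v ≡ 1 [ZMOD W] := by
    rcases A.eq_empty_or_nonempty with h0 | ⟨p', hp'⟩
    · exact ⟨0, fun p hp => absurd hp (h0 ▸ Finset.notMem_empty p)⟩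
    · obtain ⟨v, hv⟩ := Int.mod_coprime (hcop p' hp')
      refine ⟨v, fun p hp => ?_⟩
      have h1 : p % W = p' % W := by
        rw [(Finset.mem_filter.1 hp).2, (Finset.mem_filter.1 hp').2]
      have h2 : (p : ℤ) ≡ (p' : ℤ) [ZMOD W] := by
        rw [Int.ModEq]
        exact_mod_cast h1
      exact (h2.mul_right v).trans hv
  refine ⟨P, A, v, hAP, hP1, hP2, ?_, hv, ?_⟩
  · intro p hp
    obtain ⟨h1, h2⟩ := (Finset.mem_filter.1 (hAF hp)).2
    refine ⟨h1, ?_⟩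
    have h3 : (p : ℝ) ≤ P + Lw := by exact_mod_cast h2
    linarith
  · refine le_trans (le_of_eq ?_) ((div_le_div_of_nonneg_right hFc hWr.le).trans hrc)
    field_simp

/-- an interval of integers -/
theorem card_int (a w : ℝ) (hw : 0 ≤ w) : ((Finset.Icc ⌈a - w⌉ ⌊a + w⌋).card : ℝ) ≤ 2 * w + 1 := by
  rw [Int.card_Icc]
  have h1 := Int.le_ceil (a - w)
  have h2 := Int.floor_le (a + w)
  rcases le_or_gt 0 (⌊a + w⌋ + 1 - ⌈a - w⌉) with h3 | h3
  · have h4 : (((⌊a + w⌋ + 1 - ⌈a - w⌉).toNat : ℕ) : ℝ) = (⌊a + w⌋ : ℝ) + 1 - (⌈a - w⌉ : ℝ) := by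
      have h5 : (((⌊a + w⌋ + 1 - ⌈a - w⌉).toNat : ℕ) : ℤ) = ⌊a + w⌋ + 1 - ⌈a - w⌉ :=
        Int.toNat_of_nonneg h3
      exact_mod_cast congrArg (fun z : ℤ => (z : ℝ)) h5
    rw [h4]
    linarith
  · rw [Int.toNat_of_nonpos h3.le]
    push_cast
    linarith

/-- the floors agree for most numbers -/
theorem floors (J N P M p : ℕ) (κ : ℝ) (hJ : 0 < J) (hN : 0 < N) (hP : 0 < P) (hκ : 0 ≤ κ)
    (hM : M / P = N) (hPp : P < p) (hp : (p : ℝ) ≤ (1 + κ) * P) :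
    (((Finset.Icc (1 : ℤ) ((M / p : ℕ) : ℤ)).filter (fun n : ℤ =>
      (J : ℤ) * n / (N : ℤ) ≠ (J : ℤ) * ((p : ℤ) * n) / (M : ℤ))).card : ℝ) ≤
      ((J : ℝ) + 1) * (2 * (κ * N + 1) + 1) := by
  classical
  have hM1 : P * N ≤ M := by
    rw [← hM]
    exact Nat.mul_div_le M P
  have hM2 : M < P * (N + 1) := by
    rw [← hM]
    exact Nat.lt_mul_div_succ M hP
  have hMpos : 0 < M := lt_of_lt_of_le (Nat.mul_pos hP hN) hM1
  have hp0 : 0 < p := by omega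
  have hJr : (0 : ℝ) < J := by exact_mod_cast hJ
  have hNr : (0 : ℝ) < N := by exact_mod_cast hN
  have hMr : (0 : ℝ) < M := by exact_mod_cast hMpos
  have hpr : (0 : ℝ) < p := by exact_mod_cast hp0
  have hPr : (0 : ℝ) < P := by exact_mod_cast hP
  have hNz : (0 : ℤ) < N := by exact_mod_cast hN
  have hMz : (0 : ℤ) < M := by exact_mod_cast hMpos
  have hJz : (0 : ℤ) < J := by exact_mod_cast hJ
  have hM1r : (P : ℝ) * N ≤ M := by exact_mod_cast hM1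
  have hM2r : (M : ℝ) ≤ p * (N + 1) := by
    have h1 : M ≤ p * (N + 1) := hM2.le.trans (Nat.mul_le_mul_right _ hPp.le)
    exact_mod_cast h1
  have hpN : (p : ℝ) * N ≤ (1 + κ) * M := by
    calc (p : ℝ) * N ≤ (1 + κ) * P * N := mul_le_mul_of_nonneg_right hp hNr.le
      _ = (1 + κ) * (P * N) := by ring
      _ ≤ (1 + κ) * M := mul_le_mul_of_nonneg_left hM1r (by linarith)
  have hw : 0 ≤ κ * N + 1 := by positivity
  have hsub : (Finset.Icc (1 : ℤ) ((M / p : ℕ) : ℤ)).filter (fun n : ℤ =>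
      (J : ℤ) * n / (N : ℤ) ≠ (J : ℤ) * ((p : ℤ) * n) / (M : ℤ)) ⊆
      (Finset.Icc (0 : ℤ) J).biUnion (fun i =>
        Finset.Icc ⌈(i : ℝ) * N / J - (κ * N + 1)⌉ ⌊(i : ℝ) * N / J + (κ * N + 1)⌋) := by
    intro n hn
    obtain ⟨h1, hne⟩ := Finset.mem_filter.1 hn
    obtain ⟨hn1, hn2⟩ := Finset.mem_Icc.1 h1
    have hpn : (p : ℤ) * n ≤ M := by
      have h2 : (p : ℤ) * ((M / p : ℕ) : ℤ) ≤ M := by exact_mod_cast Nat.mul_div_le M p
      have h3 : (0 : ℤ) ≤ p := by positivity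
      exact (mul_le_mul_of_nonneg_left hn2 h3).trans h2
    have hnN : n ≤ N := by
      refine hn2.trans ?_
      rw [← hM]
      exact_mod_cast Nat.div_le_div_left hPp.le hP
    set a : ℤ := (J : ℤ) * n / (N : ℤ) with ha
    set b : ℤ := (J : ℤ) * ((p : ℤ) * n) / (M : ℤ) with hb
    have ha1 : a * N ≤ J * n := Int.ediv_mul_le _ hNz.ne'
    have ha2 : J * n < (a + 1) * N := Int.lt_ediv_add_one_mul_self _ hNz
    have hb1 : b * M ≤ J * (p * n) := Int.ediv_mul_le _ hMz.ne'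
    have hb2 : J * (p * n) < (b + 1) * M := Int.lt_ediv_add_one_mul_self _ hMz
    have ha0 : 0 ≤ a := Int.ediv_nonneg (by positivity) hNz.le
    have hb0 : 0 ≤ b := Int.ediv_nonneg (by positivity) hMz.le
    have haJ : a ≤ J := by
      have h2 : a * N ≤ J * N := ha1.trans (mul_le_mul_of_nonneg_left hnN hJz.le)
      exact le_of_mul_le_mul_right h2 hNz
    have hbJ : b ≤ J := by
      have h2 : b * M ≤ J * M := hb1.trans (mul_le_mul_of_nonneg_left hpn hJz.le)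
      exact le_of_mul_le_mul_right h2 hMz
    have hnr : (0 : ℝ) < n := by exact_mod_cast (by omega : 0 < n)
    have hnNr : (n : ℝ) ≤ N := by exact_mod_cast hnN
    have ha1r : (a : ℝ) * N ≤ J * n := by exact_mod_cast ha1
    have ha2r : (J : ℝ) * n < (a + 1) * N := by exact_mod_cast ha2
    have hb1r : (b : ℝ) * M ≤ J * (p * n) := by exact_mod_cast hb1
    have hb2r : (J : ℝ) * (p * n) < (b + 1) * M := by exact_mod_cast hb2
    rw [Finset.mem_biUnion]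
    rcases lt_or_gt_of_ne hne with hab | hab
    · refine ⟨b, Finset.mem_Icc.2 ⟨hb0, hbJ⟩, Finset.mem_Icc.2 ⟨?_, ?_⟩⟩
      · rw [Int.ceil_le, sub_le_iff_le_add, div_le_iff₀ hJr]
        have h2 : (b : ℝ) * N * M ≤ ((1 + κ) * J * n) * M := by
          calc (b : ℝ) * N * M = b * M * N := by ring
            _ ≤ J * (p * n) * N := mul_le_mul_of_nonneg_right hb1r hNr.le
            _ = J * n * (p * N) := by ring
            _ ≤ J * n * ((1 + κ) * M) := mul_le_mul_of_nonneg_left hpN (by positivity)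
            _ = ((1 + κ) * J * n) * M := by ring
        have h3 := le_of_mul_le_mul_right h2 hMr
        have h4 : κ * J * n ≤ κ * J * N := mul_le_mul_of_nonneg_left hnNr (by positivity)
        nlinarith
      · rw [Int.le_floor]
        have h2 : (n : ℝ) ≤ (b : ℝ) * N / J := by
          rw [le_div_iff₀ hJr]
          have h3 : ((a : ℝ) + 1) * N ≤ b * N := by
            have h4 : (a : ℝ) + 1 ≤ b := by exact_mod_cast hab
            exact mul_le_mul_of_nonneg_right h4 hNr.le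
          linarith
        linarith
    · refine ⟨a, Finset.mem_Icc.2 ⟨ha0, haJ⟩, Finset.mem_Icc.2 ⟨?_, ?_⟩⟩
      · rw [Int.ceil_le]
        have h2 : (a : ℝ) * N / J ≤ n := by
          rw [div_le_iff₀ hJr]
          linarith
        linarith
      · rw [Int.le_floor]
        have h3 : ((b : ℝ) + 1) * M ≤ a * M := by
          have h4 : (b : ℝ) + 1 ≤ a := by exact_mod_cast hab
          exact mul_le_mul_of_nonneg_right h4 hMr.le
        have har : (0 : ℝ) ≤ a := by exact_mod_cast ha0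
        have h5 : (J : ℝ) * n * p ≤ (a * (N + 1)) * p := by
          calc (J : ℝ) * n * p = J * (p * n) := by ring
            _ ≤ a * M := hb2r.le.trans h3
            _ ≤ a * (p * (N + 1)) := mul_le_mul_of_nonneg_left hM2r har
            _ = _ := by ring
        have h6 := le_of_mul_le_mul_right h5 hpr
        have h7 : (n : ℝ) ≤ (a : ℝ) * N / J + 1 := by
          rw [← sub_le_iff_le_add, le_div_iff₀ hJr]
          have h8 : (a : ℝ) ≤ J := by exact_mod_cast haJ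
          nlinarith
        have h9 : 0 ≤ κ * N := by positivity
        linarith
  refine (Nat.cast_le.2 ((Finset.card_le_card hsub).trans Finset.card_biUnion_le)).trans ?_
  rw [Nat.cast_sum]
  refine (Finset.sum_le_sum fun i _ => card_int _ _ hw).trans (le_of_eq ?_)
  rw [Finset.sum_const, Int.card_Icc, nsmul_eq_mul]
  have : ((((J : ℤ) + 1 - 0).toNat : ℕ) : ℝ) = (J : ℝ) + 1 := by
    have h5 : (((J : ℤ) + 1 - 0).toNat : ℕ) = J + 1 := by omega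
    rw [h5]
    push_cast
    ring
  rw [this]

/-- rounding -/
theorem rounding (L : ℕ) (hL : 0 < L) (φ : ℤ → ℤ → ℝ) (hφ : ∀ s j, |φ s j| ≤ 1) :
    ∃ φ₁ : ℤ → ℤ → ℝ, NetF L φ₁ ∧ ∀ s j, |φ s j - φ₁ s j| ≤ 1 / L := by
  have hLr : (0 : ℝ) < L := by exact_mod_cast hL
  refine ⟨fun s j => (⌊(L : ℝ) * φ s j⌋ : ℝ) / L, fun s j => ⟨⌊(L : ℝ) * φ s j⌋, ?_, rfl⟩,
    fun s j => ?_⟩
  · obtain ⟨h1, h2⟩ := abs_le.1 (hφ s j)
    rw [abs_le]
    constructor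
    · rw [Int.le_floor]
      push_cast
      nlinarith
    · have h3 : (⌊(L : ℝ) * φ s j⌋ : ℝ) ≤ L := (Int.floor_le _).trans (by nlinarith)
      exact_mod_cast h3
  · have h1 := Int.floor_le ((L : ℝ) * φ s j)
    have h2 := Int.lt_floor_add_one ((L : ℝ) * φ s j)
    have h3 : φ s j - (⌊(L : ℝ) * φ s j⌋ : ℝ) / L = ((L : ℝ) * φ s j - ⌊(L : ℝ) * φ s j⌋) / L := by
      field_simp
    rw [h3, abs_div, abs_of_pos hLr]
    refine div_le_div_of_nonneg_right ?_ hLr.le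
    rw [abs_le]
    constructor <;> linarith

theorem net_abs {L : ℕ} (hL : 0 < L) {φ : ℤ → ℤ → ℝ} (h : NetF L φ) (s j : ℤ) : |φ s j| ≤ 1 := by
  obtain ⟨k, hk, he⟩ := h s j
  have hLr : (0 : ℝ) < L := by exact_mod_cast hL
  rw [he, abs_div, abs_of_pos hLr, div_le_one hLr]
  have : |(k : ℝ)| = ((|k| : ℤ) : ℝ) := by push_cast; rfl
  rw [this]
  exact_mod_cast hk

/-- the function of the net is close to `E` on the multiples of `p` -/
theorem close_sum (W J N P M p L : ℕ) (κ τ₀ : ℝ) (hW : 0 < W) (hJ : 0 < J) (hN : 0 < N)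
    (hP : 0 < P) (hL : 0 < L) (hκ : 0 ≤ κ) (hτ : 0 < τ₀) (hM : M / P = N) (hPp : P < p)
    (hp : (p : ℝ) ≤ (1 + κ) * P) (hLτ : 1 / (L : ℝ) ≤ τ₀ / 4)
    (hκτ : κ ≤ τ₀ / (64 * ((J : ℝ) + 1))) (hNτ : 96 * ((J : ℝ) + 1) / τ₀ ≤ N)
    (E : ℤ → ℝ) (φ φ₁ : ℤ → ℤ → ℝ)
    (hφ₁ : ∀ s j, |φ₁ s j| ≤ 1) (hr : ∀ s j, |φ s j - φ₁ s j| ≤ 1 / L)
    (hE : ∑ n ∈ Finset.Icc (1 : ℤ) N, |E n - st W J N φ n| ≤ τ₀ / 4 * N) :
    ∑ n ∈ Finset.Icc (1 : ℤ) ((M / p : ℕ) : ℤ),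
      |E n - φ₁ (n % (W : ℤ)) ((J : ℤ) * ((p : ℤ) * n) / (M : ℤ))| ≤ τ₀ * N := by
  classical
  have hNr : (0 : ℝ) < N := by exact_mod_cast hN
  have hJr : (0 : ℝ) < J := by exact_mod_cast hJ
  have hMN : M / p ≤ N := by
    rw [← hM]
    exact Nat.div_le_div_left hPp.le hP
  have hsub : Finset.Icc (1 : ℤ) ((M / p : ℕ) : ℤ) ⊆ Finset.Icc (1 : ℤ) N :=
    Finset.Icc_subset_Icc_right (by exact_mod_cast hMN)
  have h1 : ∀ n ∈ Finset.Icc (1 : ℤ) ((M / p : ℕ) : ℤ),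
      |E n - φ₁ (n % (W : ℤ)) ((J : ℤ) * ((p : ℤ) * n) / (M : ℤ))| ≤
        |E n - st W J N φ n| + 1 / L + (if (J : ℤ) * n / (N : ℤ) ≠
          (J : ℤ) * ((p : ℤ) * n) / (M : ℤ) then 2 else 0) := by
    intro n _
    have e : E n - φ₁ (n % (W : ℤ)) ((J : ℤ) * ((p : ℤ) * n) / (M : ℤ)) =
        (E n - st W J N φ n) + (φ (n % (W : ℤ)) ((J : ℤ) * n / (N : ℤ)) -
          φ₁ (n % (W : ℤ)) ((J : ℤ) * n / (N : ℤ))) +
        (φ₁ (n % (W : ℤ)) ((J : ℤ) * n / (N : ℤ)) -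
          φ₁ (n % (W : ℤ)) ((J : ℤ) * ((p : ℤ) * n) / (M : ℤ))) := by
      unfold st
      ring
    rw [e]
    refine (abs_add_le _ _).trans (add_le_add ((abs_add_le _ _).trans
      (add_le_add le_rfl (hr _ _))) ?_)
    split_ifs with h
    · refine (abs_sub _ _).trans ?_
      linarith [hφ₁ (n % (W : ℤ)) ((J : ℤ) * n / (N : ℤ)),
        hφ₁ (n % (W : ℤ)) ((J : ℤ) * ((p : ℤ) * n) / (M : ℤ))]
    · rw [not_not] at h
      rw [h, sub_self, abs_zero]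
  refine (Finset.sum_le_sum h1).trans ?_
  rw [Finset.sum_add_distrib, Finset.sum_add_distrib]
  have h2 : ∑ n ∈ Finset.Icc (1 : ℤ) ((M / p : ℕ) : ℤ), |E n - st W J N φ n| ≤ τ₀ / 4 * N :=
    (Finset.sum_le_sum_of_subset_of_nonneg hsub (fun _ _ _ => abs_nonneg _)).trans hE
  have h3 : ∑ _n ∈ Finset.Icc (1 : ℤ) ((M / p : ℕ) : ℤ), (1 / (L : ℝ)) ≤ τ₀ / 4 * N := by
    rw [Finset.sum_const, Int.card_Icc, nsmul_eq_mul]
    have h4 : ∀ t : ℕ, (((t : ℤ) + 1 - 1).toNat) = t := fun t => by omega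
    rw [h4 (M / p)]
    have h5 : (((M / p : ℕ)) : ℝ) ≤ N := by exact_mod_cast hMN
    calc (((M / p : ℕ)) : ℝ) * (1 / (L : ℝ)) ≤ N * (τ₀ / 4) :=
          mul_le_mul h5 hLτ (by positivity) hNr.le
      _ = τ₀ / 4 * N := by ring
  have h6 : ∑ n ∈ Finset.Icc (1 : ℤ) ((M / p : ℕ) : ℤ), (if (J : ℤ) * n / (N : ℤ) ≠
      (J : ℤ) * ((p : ℤ) * n) / (M : ℤ) then (2 : ℝ) else 0) ≤ τ₀ / 8 * N := by
    rw [← Finset.sum_filter, Finset.sum_const, nsmul_eq_mul]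
    have h7 := floors J N P M p κ hJ hN hP hκ hM hPp hp
    have h8 : κ * (64 * ((J : ℝ) + 1)) ≤ τ₀ := by
      rwa [le_div_iff₀ (by positivity)] at hκτ
    have h9 : 96 * ((J : ℝ) + 1) ≤ N * τ₀ := by
      rwa [div_le_iff₀ hτ] at hNτ
    have h10 : κ * (64 * ((J : ℝ) + 1)) * N ≤ τ₀ * N := mul_le_mul_of_nonneg_right h8 hNr.le
    nlinarith
  have h11 : 0 ≤ τ₀ * N := by positivity
  linarith

end Pool.Agent.H69.GS
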